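import Pool.Agent.D0H71.CM.Keep

set_option autoImplicit false

/-!
Iterates of multiplicative functions, and iterates of Euler's function at the multiples of powers of two.
-/

namespace Pool.Agent.D0H5.CS

open Pool.Agent.D0H71.CM (Comp)
open Pool.Agent.N733.TG (LM)

theorem comp_comp {F G : ℕ → ℕ} (hF : Comp F) (hG : Comp G) : Comp (fun m => F (G m)) := by
  induction hF with
  | lm hf => exact Comp.comp hf hG
  | comp hf _ ih => exact Comp.comp hf ih

theorem comp_iter {f : ℕ → ℕ} (hf : LM f) (t : ℕ) : Comp (f^[t]) := by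
  induction t with
  | zero => exact Comp.lm Pool.Agent.D0H71.CM.lm_id
  | succ t ih =>
    have e : f^[t + 1] = fun m => f (f^[t] m) := funext fun m => Function.iterate_succ_apply' f t m
    rw [e]
    exact Comp.comp hf ih

lemma iter_dvd (t : ℕ) : ∀ {a b : ℕ}, a ∣ b → Nat.totient^[t] a ∣ Nat.totient^[t] b := by
  induction t with
  | zero => exact fun h => h
  | succ t ih =>
    intro a b h
    rw [Function.iterate_succ_apply, Function.iterate_succ_apply]
    exact ih (Nat.totient_dvd_of_dvd h)

lemma iter_pos (t : ℕ) : ∀ {a : ℕ}, 0 < a → 0 < Nat.totient^[t] a := by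
  induction t with
  | zero => exact fun h => h
  | succ t ih =>
    intro a h
    rw [Function.iterate_succ_apply]
    exact ih (Nat.totient_pos.2 h)

lemma iter_two (t K : ℕ) : Nat.totient^[t] (2 ^ (t + K)) = 2 ^ K := by
  induction t with
  | zero => simp
  | succ t ih =>
    rw [Function.iterate_succ_apply, show t + 1 + K = (t + K) + 1 by ring,
      Nat.totient_prime_pow_succ Nat.prime_two, show 2 - 1 = 1 from rfl, mul_one]
    exact ih

/-- the values of the `t`-fold iterate of Euler's function at the multiples of `2 ^ (t + K + 1)` are even and greater than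
`K` -/
lemma iter_multiple (t K j : ℕ) : Even (Nat.totient^[t] (2 ^ (t + (K + 1)) * (j + 1))) ∧
    K < Nat.totient^[t] (2 ^ (t + (K + 1)) * (j + 1)) := by
  have h1 : 2 ^ (K + 1) ∣ Nat.totient^[t] (2 ^ (t + (K + 1)) * (j + 1)) := by
    have h2 := iter_dvd t (dvd_mul_right (2 ^ (t + (K + 1))) (j + 1))
    rwa [iter_two] at h2
  have h3 : 0 < Nat.totient^[t] (2 ^ (t + (K + 1)) * (j + 1)) := iter_pos t (by positivity)
  refine ⟨even_iff_two_dvd.2 ((dvd_pow_self 2 (by omega)).trans h1), ?_⟩
  have h4 : K < 2 ^ K := Nat.lt_two_pow_self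
  have h5 : 2 ^ K ≤ 2 ^ (K + 1) := Nat.pow_le_pow_right (by norm_num) (by omega)
  have h6 := Nat.le_of_dvd h3 h1
  omega

end Pool.Agent.D0H5.CS
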