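import Pool.Agent.N760.SC.A
import Pool.Agent.D0H71.CM.Keep

set_option autoImplicit false

/-!
Properties of tuples of integers which are bad for few tuples at every scale, at the values of compositions of multiplicative
functions (the proof follows `N760/SC/A`, with the engine `D0H71/CM`).
-/

namespace Pool.Agent.D0H5.CS

open Finset
open Pool.Agent.D0H71.CM (Av ckeep_tuples2)
open Pool.Agent.N760.SC (BadTuples NearTuple count_scales count_near)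

/-- **Values of functions with `Av`,** for example of compositions of multiplicative functions. A property of tuples at scales, bad for at most `K N ^ (k - 1)` tuples at the
scale `N`. For almost all tuples `m`, no tuple `s` near the tuple of the values `F_i (m_i)` is bad at a scale `T` with all
`s_i` in `[T, κ T]`. -/
theorem ckeep_scales {k : ℕ} (hk : 1 ≤ k) (κ : ℕ) (P Q : ℕ → (Fin k → ℕ) → Prop)
    (hPQ : ∀ (N T : ℕ) (s : Fin k → ℕ), N ≤ T → T < 2 * N → P T s → Q N s)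
    (hQ : ∃ K N₀ : ℕ, ∀ N : ℕ, N₀ ≤ N →
      {s : Fin k → ℕ | (∀ j, N ≤ s j ∧ s j ≤ (2 * κ) * N) ∧ Q N s}.ncard ≤ K * N ^ (k - 1))
    {F : Fin k → ℕ → ℕ} (hF : ∀ i, Av (F i)) {θ : ℝ} (hθ : 0 ≤ θ) (hθk : k * θ < 1) (U : ℕ) :
    ∃ N₀ : ℕ, ∀ N : ℕ, N₀ ≤ N →
      ({m : Fin k → ℕ | (∀ i, 1 ≤ m i ∧ m i ≤ N) ∧ ¬ ∀ (s : Fin k → ℕ) (T : ℕ), 1 ≤ T →
        (∀ i, T ≤ s i ∧ s i ≤ κ * T) → (∀ i, |(s i : ℝ) - F i (m i)| ≤ (F i (m i) : ℝ) ^ θ) → ¬ P T s}.ncard : ℝ) ≤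
        (N : ℝ) ^ k / Real.log N ^ U := by
  have hk1 : (1 : ℝ) ≤ k := by exact_mod_cast hk
  obtain ⟨ε, hε⟩ : ∃ ε : ℝ, ε = (1 - k * θ) / 2 := ⟨_, rfl⟩
  have hε0 : 0 < ε := by rw [hε]; linarith
  have hθ1 : θ ≤ 1 := by nlinarith
  obtain ⟨C₀, hC₀, h1⟩ := count_scales hk κ P Q hPQ hQ ε hε0
  obtain ⟨C₁, h2⟩ := count_near (BadTuples κ P) (ρ := (k : ℝ) - 1 + ε) (θ := θ) (by linarith) hθ hθ1 hC₀ h1
  obtain ⟨N₀, hN₀⟩ := ckeep_tuples2 hk hF (c := ε) hε0 U C₁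
  refine ⟨N₀, fun N hN => ?_⟩
  have h3 := hN₀ N hN (NearTuple (BadTuples κ P) θ) (fun X hX => by
    refine (h2 X hX).trans (le_of_eq ?_)
    congr 2
    rw [hε]
    ring)
  refine le_trans ?_ h3
  have hfin : {m : Fin k → ℕ | (∀ i, 1 ≤ m i ∧ m i ≤ N) ∧ ¬ ((∀ i, 2 ≤ F i (m i)) ∧
      (fun i => F i (m i)) ∉ NearTuple (BadTuples κ P) θ)}.Finite := by
    refine (Set.Finite.pi' (t := fun _ : Fin k => Set.Icc 1 N) fun _ => Set.finite_Icc _ _).subset ?_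
    intro m hm i
    exact hm.1 i
  refine Nat.cast_le.2 (Set.ncard_le_ncard ?_ hfin)
  rintro m ⟨g1, g2⟩
  refine ⟨g1, fun g3 => g2 fun s T hT hs hw hP => g3.2 ⟨s, ⟨T, hT, hs, hP⟩, hw⟩⟩

end Pool.Agent.D0H5.CS
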