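import Pool.Agent.D0H5.CS.Scales
import Pool.Agent.D0H5.CS.Iter

set_option autoImplicit false

/-!
Properties of tuples which depend on a height `C ^ T`: the values of compositions of multiplicative functions.
-/

namespace Pool.Agent.D0H5.CS

open Pool.Agent.D0H71.CM (Comp av_comp)

/-- For all large `N`, for all but `N ^ k / (log N) ^ U` of the tuples `m ∈ [1, N] ^ k` the property `E (C ^ T)` fails for ALL
tuples `s` with `|s_i - F_i(m_i)| ≤ F_i(m_i) ^ θ` and `T ≤ s_i ≤ κ T`, `T ≥ 1`. -/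
def ThinNear {k : ℕ} (κ : ℕ) (C : ℝ) (F : Fin k → ℕ → ℕ) (θ : ℝ) (U : ℕ) (E : ℝ → (Fin k → ℕ) → Prop) : Prop :=
  ∃ N₀ : ℕ, ∀ N : ℕ, N₀ ≤ N →
    ({m : Fin k → ℕ | (∀ i, 1 ≤ m i ∧ m i ≤ N) ∧ ∃ (s : Fin k → ℕ) (T : ℕ), 1 ≤ T ∧ (∀ i, T ≤ s i ∧ s i ≤ κ * T) ∧
      (∀ i, |(s i : ℝ) - F i (m i)| ≤ (F i (m i) : ℝ) ^ θ) ∧ E (C ^ T) s}.ncard : ℝ) ≤ (N : ℝ) ^ k / Real.log N ^ U

lemma pow_bound (C : ℝ) {N T : ℕ} (h : T ≤ 2 * N) : C ^ T ≤ ((max |C| 1) ^ 2) ^ N := by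
  have h5 : (1 : ℝ) ≤ max |C| 1 := le_max_right _ _
  calc C ^ T ≤ |C ^ T| := le_abs_self _
    _ = |C| ^ T := abs_pow C T
    _ ≤ (max |C| 1) ^ T := pow_le_pow_left₀ (abs_nonneg C) (le_max_left _ _) T
    _ ≤ (max |C| 1) ^ (2 * N) := pow_le_pow_right₀ h5 h
    _ = _ := pow_mul _ _ _

/-- a property which holds for at most `K N ^ (k - 1)` of the tuples in `[N, 2 κ N] ^ k`, with `K` independent of `C` -/
theorem thin_of_count {k : ℕ} (hk : 1 ≤ k) (κ : ℕ) (C : ℝ) {F : Fin k → ℕ → ℕ} (hF : ∀ i, Comp (F i)) {θ : ℝ} (hθ : 0 ≤ θ)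
    (hθk : k * θ < 1) (U : ℕ) {E : ℝ → (Fin k → ℕ) → Prop} (hE : ∀ H H' s, H ≤ H' → E H s → E H' s)
    (h : ∃ K : ℕ, ∀ C : ℝ, ∃ N₀ : ℕ, ∀ N : ℕ, N₀ ≤ N →
      {s : Fin k → ℕ | (∀ j, N ≤ s j ∧ s j ≤ (2 * κ) * N) ∧ E (C ^ N) s}.ncard ≤ K * N ^ (k - 1)) :
    ThinNear κ C F θ U E := by
  obtain ⟨K, hK⟩ := h
  obtain ⟨N₁, hN₁⟩ := hK ((max |C| 1) ^ 2)
  obtain ⟨N₀, hN₀⟩ := ckeep_scales hk κ (fun T s => E (C ^ T) s)
    (fun N s => E (((max |C| 1) ^ 2) ^ N) s)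
    (fun N T s h1 h2 h3 => hE _ _ s (pow_bound C h2.le) h3)
    ⟨K, N₁, fun N hN => hN₁ N hN⟩ (fun i => av_comp (hF i)) hθ hθk U
  refine ⟨N₀, fun N hN => le_trans (le_of_eq ?_) (hN₀ N hN)⟩
  congr 2
  ext m
  constructor
  · rintro ⟨h1, s, T, h2, h3, h4, h5⟩
    exact ⟨h1, fun h => h s T h2 h3 h4 h5⟩
  · rintro ⟨h1, h2⟩
    push Not at h2
    obtain ⟨s, T, h2, h3, h4, h5⟩ := h2
    exact ⟨h1, s, T, h2, h3, h4, h5⟩

/-- a property which fails near almost all values of an iterate of Euler's function fails for large odd numbers -/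
theorem odd_of_thin {t : ℕ} {E : ℝ → (Fin 1 → ℕ) → Prop}
    (h : ThinNear 1 2 (fun _ => Nat.totient^[t]) (1 / 2) 1 E) (s₁ : ℕ) :
    ∃ s, s₁ ≤ s ∧ Odd s ∧ ¬ E (2 ^ s) (fun _ => s) := by
  classical
  by_contra hcon
  push Not at hcon
  obtain ⟨N₀, hN₀⟩ := h
  obtain ⟨q, hq⟩ : ∃ q : ℕ, q = 2 ^ (t + (s₁ + 1)) := ⟨_, rfl⟩
  have hq1 : 1 ≤ q := by
    rw [hq]
    exact Nat.one_le_two_pow
  obtain ⟨M, hM⟩ := ((Real.tendsto_log_atTop.comp tendsto_natCast_atTop_atTop).eventually_gt_atTop (q : ℝ)).exists_forall_of_atTop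
  obtain ⟨L, hL⟩ : ∃ L : ℕ, L = N₀ + M + 1 := ⟨_, rfl⟩
  have hlog : (q : ℝ) < Real.log ((q * L : ℕ) : ℝ) := hM (q * L) (by nlinarith)
  have hq0 : (0 : ℝ) < q := by exact_mod_cast (by omega : 0 < q)
  have h1 := hN₀ (q * L) (by nlinarith)
  set S : Set (Fin 1 → ℕ) := {m : Fin 1 → ℕ | (∀ i, 1 ≤ m i ∧ m i ≤ q * L) ∧ ∃ (s : Fin 1 → ℕ) (T : ℕ), 1 ≤ T ∧
    (∀ i, T ≤ s i ∧ s i ≤ 1 * T) ∧ (∀ i, |(s i : ℝ) - Nat.totient^[t] (m i)| ≤ (Nat.totient^[t] (m i) : ℝ) ^ (1 / 2 : ℝ)) ∧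
    E (2 ^ T) s} with hS
  let f : ℕ → Fin 1 → ℕ := fun j _ => q * (j + 1)
  have hf : Function.Injective f := by
    intro i j hij
    have h2 : q * (i + 1) = q * (j + 1) := congrFun hij 0
    have := Nat.eq_of_mul_eq_mul_left (by omega : 0 < q) h2
    omega
  have h2 : f '' ((Finset.range L : Finset ℕ) : Set ℕ) ⊆ S := by
    rintro m ⟨j, hj, rfl⟩
    rw [Finset.mem_coe, Finset.mem_range] at hj
    have hpos : 1 ≤ q * (j + 1) := Nat.mul_pos hq1 (by omega)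
    obtain ⟨heven, hle⟩ := iter_multiple t s₁ j
    obtain ⟨v, hv⟩ : ∃ v, v = Nat.totient^[t] (q * (j + 1)) := ⟨_, rfl⟩
    rw [← hq, ← hv] at hle heven
    have hE := hcon (v + 1) (by omega) heven.add_one
    refine ⟨fun i => ⟨hpos, Nat.mul_le_mul_left q (by omega)⟩, fun _ => v + 1, v + 1, by omega, fun i => ⟨le_rfl, (one_mul (v + 1)).ge⟩,
      fun i => ?_, hE⟩
    change |((v + 1 : ℕ) : ℝ) - ((Nat.totient^[t] (q * (j + 1)) : ℕ) : ℝ)| ≤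
      ((Nat.totient^[t] (q * (j + 1)) : ℕ) : ℝ) ^ (1 / 2 : ℝ)
    rw [← hv]
    have h3 : ((v + 1 : ℕ) : ℝ) - (v : ℝ) = 1 := by push_cast; ring
    rw [h3, abs_one]
    exact Real.one_le_rpow (by exact_mod_cast (by omega : 1 ≤ v)) (by norm_num)
  have hfin : S.Finite := by
    refine (Set.Finite.pi' (t := fun _ : Fin 1 => Set.Icc 1 (q * L)) fun _ => Set.finite_Icc _ _).subset ?_
    intro m hm j
    exact ⟨(hm.1 j).1, (hm.1 j).2⟩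
  have h3 := Set.ncard_le_ncard h2 hfin
  rw [Set.ncard_image_of_injective _ hf, Set.ncard_coe_finset, Finset.card_range] at h3
  have h4 : (L : ℝ) ≤ ((q * L : ℕ) : ℝ) ^ 1 / Real.log ((q * L : ℕ) : ℝ) ^ 1 := le_trans (by exact_mod_cast h3) h1
  rw [pow_one, pow_one, le_div_iff₀ (hq0.trans hlog)] at h4
  have hL0 : (0 : ℝ) < L := by exact_mod_cast (by omega : 0 < L)
  push_cast at h4 hlog
  nlinarith

end Pool.Agent.D0H5.CS
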